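import Pool.Agent.Q211.SK.Main

/-!
# MP_941e3e_gt: a countably compact space which is consistently not Stäckel-compact

`Q211.SK.E` is the subspace `{α < ω₂ : cf α ≤ ω}` of the ordinals, `Q211.SK.Friedman` says that
every stationary subset of `{α < ω₂ : cf α = ω}` contains a closed copy of `ω₁`.
-/

namespace Pool.Agent.Results.MP_941e3e_gt.CountableCofinality

open Q211.SK Filter Topology

/-- The space `E` is completely normal, scattered, countably compact and sequentially compact
(in ZFC), and if every stationary subset of `{α < ω₂ : cf α = ω}` contains a closed copy of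
`ω₁` then it is not Stäckel-compact. -/
theorem result : T5Space E ∧ T35Space E ∧ CtblyCompact E ∧ Scattered E ∧
    (∀ x : ℕ → E, ∃ a : E, ∃ φ : ℕ → ℕ, StrictMono φ ∧ Tendsto (x ∘ φ) atTop (𝓝 a)) ∧
    (Friedman → ¬ Stackel E) :=
  ⟨t5_E, inferInstance, ctbly_E, scattered_E, seq_E, not_stackel_E⟩

end Pool.Agent.Results.MP_941e3e_gt.CountableCofinality
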